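import Pool.Agent.H86.PkD

namespace Pool.Agent.Results.MP_62709f_an.ThetaZero
open MeasureTheory
open scoped ENNReal

universe u

/-- `f ≥ 0` almost everywhere (complex values: real and nonnegative). -/
def Nonneg {S : Type u} [MeasurableSpace S] {μ : Measure S} {p : ℝ≥0∞} (f : Lp ℂ p μ) : Prop :=
  ∀ᵐ s ∂μ, 0 ≤ (f s).re ∧ (f s).im = 0

/-- Strongly Kreiss bounded element of a Banach algebra of operators. -/
def StronglyKreiss {X : Type u} [NormedAddCommGroup X] [NormedSpace ℂ X] (T : X →L[ℂ] X) : Prop :=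
  spectrum ℂ T ⊆ Metric.closedBall 0 1 ∧
    ∃ M : ℝ, ∀ z : ℂ, 1 < ‖z‖ → ∀ k : ℕ, 1 ≤ k → ‖resolvent T z ^ k‖ ≤ M / (‖z‖ - 1) ^ k

/-- Every strongly Kreiss bounded operator on `X` that maps the cone `P` into itself
satisfies `‖T^n‖ ≤ C n^θ` for `n ≥ 1`. -/
def PowerBound (X : Type u) [NormedAddCommGroup X] [NormedSpace ℂ X] (P : X → Prop) (θ : ℝ) :
    Prop :=
  ∀ T : X →L[ℂ] X, (∀ f, P f → P (T f)) → StronglyKreiss T →
    ∃ C : ℝ, ∀ n : ℕ, 1 ≤ n → ‖T ^ n‖ ≤ C * (n : ℝ) ^ θ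

/-- The exponents `θ ∈ [0,1/2)` that work for all positive strongly Kreiss bounded operators
on all `L^p(S)`; `θ_p` is the infimum of this set. -/
def Good (p : ℝ≥0∞) [Fact (1 ≤ p)] : Set ℝ :=
  {θ | 0 ≤ θ ∧ θ < 1 / 2 ∧ ∀ (S : Type u) [MeasurableSpace S] (μ : Measure S),
    PowerBound (Lp ℂ p μ) Nonneg θ}

theorem result (p : ℝ≥0∞) [Fact (1 ≤ p)] (hp1 : 1 < p) (hp : p ≠ ∞) :
    Set.Ioo 0 (1 / 2) ⊆ Good.{u} p ∧ sInf (Good.{u} p) = 0 := by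
  have h : Set.Ioo 0 (1 / 2) ⊆ Good.{u} p := by
    rintro θ ⟨h0, h1⟩
    refine ⟨h0.le, h1, fun S _ μ T hT ⟨_, M, hM⟩ => ?_⟩
    open scoped ComplexOrder in
    have e : ∀ f : Lp ℂ p μ, Nonneg f ↔ 0 ≤ f := fun f => by
      rw [← Lp.coeFn_nonneg]
      refine Filter.eventually_congr (Filter.Eventually.of_forall fun s => ?_)
      simp [Complex.le_def, eq_comm]
    exact Pool.Agent.H86.Pk.growth hp1 hp T (fun f hf => (e _).1 (hT f ((e f).2 hf))) M hM θ h0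
  refine ⟨h, le_antisymm ?_ (Real.sInf_nonneg fun θ hθ => hθ.1)⟩
  have hb : BddBelow (Good.{u} p) := ⟨0, fun θ hθ => hθ.1⟩
  have := csInf_le_csInf hb (Set.nonempty_Ioo.2 (by norm_num)) h
  rwa [csInf_Ioo (by norm_num)] at this

end Pool.Agent.Results.MP_62709f_an.ThetaZero
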